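import Pool.Agent.V11286.MinHeight

/-!
# MP_216eb3_nt : the height on a quotient is comparable to the minimal height in the orbit
-/

set_option autoImplicit false

namespace Pool.Agent.Results.MP_216eb3_nt.QuotientHeights

open Pool.Agent.V11286.AbsHeight Pool.Agent.V11286.MinHeight

/-- `A ≍ B` on `S`: there are `c₁, c₂ > 0` and `c₃, c₄` with `c₁ A - c₃ ≤ B ≤ c₂ A + c₄`. -/
def Comparable {S : Type*} (A B : S → ℝ) : Prop :=
  ∃ c₁ c₂ c₃ c₄ : ℝ, 0 < c₁ ∧ 0 < c₂ ∧ ∀ s : S, c₁ * A s - c₃ ≤ B s ∧ B s ≤ c₂ * A s + c₄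

/-- Let `X ⊆ P^n` be a quasi-projective algebraic set over the algebraic numbers with an action of
a group `G` on its points, and let `π : X → P^m` be a morphism whose fibres are exactly the
`G`-orbits (for instance a geometric quotient `X → Y = X // G` followed by an embedding
`Y ⊆ P^m`). Then the height of `π x` is comparable to the minimal height of a point of the orbit
of `x`. -/
theorem result {n m : ℕ} (X : Set (PP n)) (hX : IsQuasiProj X) (π : PP n → PP m)
    (hπ : IsRegularOn X π) (G : Type*) [Group G] [MulAction G X]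
    (hG : ∀ x x' : X, π x = π x' ↔ ∃ g : G, g • x = x') :
    Comparable (fun x : X => ht (π x)) (fun x : X => ⨅ g : G, ht (g • x : X).1) := by
  obtain ⟨C, hC, hC'⟩ := easy hπ
  obtain ⟨D, hD, hD'⟩ := hard hX hπ
  have hbdd : ∀ x : X, BddBelow (Set.range fun g : G => ht (g • x : X).1) := fun x =>
    ⟨0, by rintro _ ⟨g, rfl⟩; exact hv_nonneg _⟩
  refine ⟨C⁻¹, D, 1, D, inv_pos.mpr hC, hD, fun x => ⟨?_, ?_⟩⟩
  · apply le_ciInf
    intro g
    have h1 := hC' (g • x : X).1 (g • x : X).2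
    have h2 : π (g • x : X).1 = π x.1 := ((hG x (g • x)).mpr ⟨g, rfl⟩).symm
    rw [h2] at h1
    have h3 : C⁻¹ * ht (π x.1) ≤ C⁻¹ * (C * (ht (g • x : X).1 + 1)) :=
      mul_le_mul_of_nonneg_left h1 (inv_pos.mpr hC).le
    rw [← mul_assoc, inv_mul_cancel₀ hC.ne', one_mul] at h3
    simp only
    linarith
  · obtain ⟨P', hP', h1, h2⟩ := hD' x.1 x.2
    obtain ⟨g, hg⟩ := (hG x ⟨P', hP'⟩).mp h1.symm
    have h3 : (⨅ g : G, ht (g • x : X).1) ≤ ht P' := by
      have := ciInf_le (hbdd x) g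
      rw [hg] at this
      exact this
    simp only
    linarith

end Pool.Agent.Results.MP_216eb3_nt.QuotientHeights
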